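import Pool.Agent.helper5.SYM.SpecA

/-!
Project sy: row PAR, the parity homomorphism of a group of order 4.
-/

set_option autoImplicit false

namespace Pool.Agent.SYM
open Finset CT Polynomial

theorem PAR_order (A : Type) [AddCommGroup A] [Finite A] (hA : Nat.card A = 4) (h : A) :
    addOrderOf h = 4 ∨ addOrderOf h ∣ 2 := by
  have h1 : addOrderOf h ∣ 4 := hA ▸ addOrderOf_dvd_natCard h
  have h2 : addOrderOf h ≤ 4 := Nat.le_of_dvd (by norm_num) h1
  have h3 : 0 < addOrderOf h := addOrderOf_pos h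
  interval_cases h4 : addOrderOf h
  · right; norm_num
  · right; norm_num
  · omega
  · left; rfl

theorem PAR_wA (A : Type) [AddCommGroup A] [Finite A] (hA : Nat.card A = 4) (h : A) :
    wA h = 1 ↔ 2 • h ≠ 0 := by
  unfold wA
  rw [hA, ne_eq, ← addOrderOf_dvd_iff_nsmul_eq_zero]
  rcases PAR_order A hA h with h1 | h1
  · rw [h1]
    norm_num
  · have h2 : addOrderOf h ≤ 2 := Nat.le_of_dvd (by norm_num) h1
    have h3 : 0 < addOrderOf h := addOrderOf_pos h
    interval_cases h4 : addOrderOf h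
    · norm_num
    · norm_num

theorem PAR_zmod : ∀ z : ZMod 4, 2 • z ≠ 0 ↔ ZMod.castHom (by norm_num : 2 ∣ 4) (ZMod 2) z = 1 := by
  decide

theorem PAR (hWT : WT_stmt) : PAR_stmt := by
  intro A _ _ hA
  by_cases hex : ∃ h : A, 2 • h ≠ 0
  · obtain ⟨g, hg⟩ := hex
    have hg4 : addOrderOf g = 4 := by
      rcases PAR_order A hA g with h1 | h1
      · exact h1
      · exact absurd (addOrderOf_dvd_iff_nsmul_eq_zero.1 h1) hg
    have hcyc : IsAddCyclic A := isAddCyclic_of_addOrderOf_eq_card g (by rw [hg4, hA])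
    have e0 : ZMod (Nat.card A) ≃+ A := zmodAddCyclicAddEquiv hcyc
    rw [hA] at e0
    refine ⟨(ZMod.castHom (by norm_num : 2 ∣ 4) (ZMod 2)).toAddMonoidHom.comp e0.symm.toAddMonoidHom,
      fun h => ?_⟩
    rw [PAR_wA A hA h]
    have h1 := PAR_zmod (e0.symm h)
    rw [← map_nsmul, ne_eq, EmbeddingLike.map_eq_zero_iff] at h1
    exact h1
  · push Not at hex
    refine ⟨0, fun h => ?_⟩
    rw [PAR_wA A hA h, AddMonoidHom.zero_apply]
    constructor
    · intro h1
      exact absurd (hex h) h1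
    · intro h1
      exact absurd h1 (by decide)

end Pool.Agent.SYM
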